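import Pool.Graph.R_pool_sql_team_seeded_3997aac3.Q5.SG.Asm
import Pool.Graph.R_pool_sql_team_seeded_3997aac3.Q14.SG.IJ
import Pool.Graph.R_pool_sql_team_seeded_3997aac3.Q166.SG.SL
import Pool.Graph.R_pool_sql_team_seeded_3997aac3.Q176.SG.XF
import Pool.Graph.R_pool_sql_team_seeded_3997aac3.Q182.SG.Tr
import Pool.Graph.R_pool_sql_team_seeded_3997aac3.Q222.SG.HB
import Pool.Graph.R_pool_sql_team_seeded_3997aac3.Q222.SG.KP
import Pool.Graph.R_pool_sql_team_seeded_3997aac3.Q222.SG.NP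
import Pool.Graph.R_pool_sql_team_seeded_3997aac3.Q24.SG.CQ
import Pool.Graph.R_pool_sql_team_seeded_3997aac3.Q24.SG.DV
import Pool.Graph.R_pool_sql_team_seeded_3997aac3.Q241.SG.RC
import Pool.Graph.R_pool_sql_team_seeded_3997aac3.Q248.SG.CB
import Pool.Graph.R_pool_sql_team_seeded_3997aac3.Q248.SG.NR
import Pool.Graph.R_pool_sql_team_seeded_3997aac3.Q25.SG.DG
import Pool.Graph.R_pool_sql_team_seeded_3997aac3.Q251.SG.CH
import Pool.Graph.R_pool_sql_team_seeded_3997aac3.Q251.SG.QF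
import Pool.Graph.R_pool_sql_team_seeded_3997aac3.Q261.SG.GI
import Pool.Graph.R_pool_sql_team_seeded_3997aac3.Q277.SG.IG
import Pool.Graph.R_pool_sql_team_seeded_3997aac3.Q285.SG.PW
import Pool.Graph.R_pool_sql_team_seeded_3997aac3.Q285.SG.EX
import Pool.Graph.R_pool_sql_team_seeded_3997aac3.Q290.SG.FE
import Pool.Graph.R_pool_sql_team_seeded_3997aac3.Q290.SG.SM
import Pool.Graph.R_pool_sql_team_seeded_3997aac3.Q65.SG.DE
import Pool.Graph.R_pool_sql_team_seeded_3997aac3.Q84.SG.KU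
import Pool.Graph.R_pool_sql_team_seeded_3997aac3.Helper104.SG.BS
import Pool.Graph.R_pool_sql_team_seeded_3997aac3.Q156.SG.CN
import Pool.Graph.R_pool_sql_team_seeded_3997aac3.Q156.SG.CY
import Pool.Graph.R_pool_sql_team_seeded_3997aac3.Q170.SG.SW
import Pool.Graph.R_pool_sql_team_seeded_3997aac3.Q170.SG.UR
import Pool.Graph.R_pool_sql_team_seeded_3997aac3.Q177.SG.CX
import Pool.Graph.R_pool_sql_team_seeded_3997aac3.Q177.SG.IN
import Pool.Graph.R_pool_sql_team_seeded_3997aac3.Q222.SG.BD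
import Pool.Graph.R_pool_sql_team_seeded_3997aac3.Q222.SG.FN
import Pool.Graph.R_pool_sql_team_seeded_3997aac3.Q224.SG.CO
import Pool.Graph.R_pool_sql_team_seeded_3997aac3.Q25.SG.UK
import Pool.Graph.R_pool_sql_team_seeded_3997aac3.Q251.SG.CP
import Pool.Graph.R_pool_sql_team_seeded_3997aac3.Q277.SG.BT
import Pool.Graph.R_pool_sql_team_seeded_3997aac3.Q56.SG.CC
import Pool.Graph.R_pool_sql_team_seeded_3997aac3.Q170.SG.LC
import Pool.Graph.R_pool_sql_team_seeded_3997aac3.Q31.SG.LK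
import Pool.Graph.R_pool_sql_team_seeded_3997aac3.Q65.SG.TG
import Pool.Graph.R_pool_sql_team_seeded_3997aac3.Q150.SG.HX
import Pool.Graph.R_pool_sql_team_seeded_3997aac3.Q224.SG.BL
import Pool.Graph.R_seed8.Y944.LC.BRU

/-! Assembly of the project SG: characters of `p`-power order ramified at one prime. -/

set_option autoImplicit false

namespace Pool.Agent.H50.SG

open NumberField IsDedekindDomain Module Pool.Agent.Y18.LC Pool.Agent.Q5.SG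


theorem hRC : S_RC := Pool.Agent.Q241.SG.rc Pool.Agent.Q290.SG.sm Pool.Agent.Q285.SG.rt

theorem hIT : S_IT := Pool.Agent.Q285.SG.it Pool.Agent.Q290.SG.sm Pool.Agent.Q285.SG.pw Pool.Agent.Q285.SG.rt

theorem hIN : S_IN := Pool.Agent.Q177.SG.t_IN Pool.Agent.Q290.SG.sm Pool.Agent.Q285.SG.pw Pool.Agent.Q285.SG.rt
  Pool.Agent.Q290.SG.fe Pool.Agent.Q290.SG.vl Pool.Agent.Q285.SG.ex Pool.Agent.Q24.SG.t_CQ Pool.Agent.Q251.SG.qf
  hIT Pool.Agent.Q222.SG.hb Pool.Agent.Q24.SG.t_DV hRC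

theorem hFN : S_FN := Pool.Agent.Q222.SG.fn Pool.Agent.Q290.SG.sm Pool.Agent.Q285.SG.rt hRC

theorem hBD : S_BD := Pool.Agent.Q222.SG.bd Pool.Agent.Q156.SG.t_CY

theorem hBL : S_BL := Pool.Agent.Q224.SG.j_bl hBD

theorem hCO : S_CO := Pool.Agent.Q224.SG.j_co Pool.Agent.Q285.SG.pw hRC hFN hBL Pool.Agent.Q156.SG.t_CN

theorem hGI : S_GI := Pool.Agent.Q261.SG.gi Pool.Agent.Q285.SG.pw

theorem hTR : S_TR := Pool.Agent.Q182.SG.t_TR Pool.Agent.Q285.SG.ex hGI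

theorem hCR : S_CR := Pool.Agent.Q285.SG.cr Pool.Agent.Q290.SG.ab

theorem hDE : S_DE := Pool.Agent.Q65.SG.de hCR

theorem hSL : S_SL := Pool.Agent.Q166.SG.sl hDE

theorem hDG : S_DG := Pool.Agent.Q25.SG.dg Pool.Agent.Q285.SG.ps Pool.Agent.Q290.SG.ab

theorem hBT : S_BT := Pool.Agent.Q277.SG.bt Pool.Agent.Q290.SG.sm Pool.Agent.Q285.SG.pw hDG

theorem hCP : S_CP := Pool.Agent.Q251.SG.cp Pool.Agent.Q285.SG.pw

theorem hTG : S_TG := Pool.Agent.Q65.SG.tg Pool.Agent.Q248.SG.cb Pool.Agent.Q176.SG.xf Pool.Agent.Q222.SG.kp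
  Pool.Agent.Q84.SG.ku Pool.Agent.Q170.SG.sw Pool.Agent.Q251.SG.ch Pool.Agent.Q56.SG.cc

theorem hBS : S_BS := Pool.Agent.Helper104.SG.bs Pool.Agent.Q222.SG.np Pool.Agent.Q277.SG.ig

theorem hUR : S_UR := Pool.Agent.Q170.SG.ur Pool.Agent.Q170.SG.lc Pool.Agent.Q31.SG.lk hBS Pool.Agent.Q14.SG.ij

theorem hHX : S_HX := Pool.Agent.Q150.SG.hx Pool.Agent.Q177.SG.t_CX hUR

/-- the two parts of the project -/
theorem main (p : ℕ) [Fact p.Prime] (hp : p ≠ 2) (F K : Type) [Field F] [NumberField F]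
    [Field K] [NumberField K] [IsTotallyReal F] [IsTotallyComplex K] [Algebra F K]
    (hFK : finrank F K = 2) (hK : Unram K p) (hL : Pool.Agent.H637R2.Leo.Leopoldt F p)
    (S : Set (K →+* ℂ_[p])) (hCM : Pool.Agent.W289.SL.IsCMType p F K S) (hS : PlaceClosed S) :
    ∃ W : ℕ, ∀ (m : ℕ) (B : Set (HeightOneSpectrum (𝓞 K))), B.Finite →
      ∃ 𝔮 : HeightOneSpectrum (𝓞 K), 𝔮 ∉ B ∧ (p : 𝓞 K) ∉ 𝔮.asIdeal ∧
      (∃ (H : Type) (_ : Field H) (_ : NumberField H) (_ : Algebra K H) (_ : IsGalois K H)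
        (g : H ≃ₐ[K] H) (m' : ℕ), (∀ h : H ≃ₐ[K] H, h ∈ Subgroup.zpowers g) ∧ m ≤ m' ∧
        finrank K H = p ^ m' ∧ RamOut 𝔮 H) ∧
      ∀ (H : Type) [Field H] [NumberField H] [Algebra K H] [IsGalois K H] (g : H ≃ₐ[K] H) (m : ℕ),
        (∀ h : H ≃ₐ[K] H, h ∈ Subgroup.zpowers g) → finrank K H = p ^ m → RamOut 𝔮 H →
        {j : ℕ | 1 ≤ j ∧ j ≤ m ∧ ¬ LayerHolds S H j}.ncard ≤ W := by
  obtain ⟨n₀, hn₀⟩ := stage2 Pool.Agent.Q290.SG.vl Pool.Agent.Q285.SG.ps hCR Pool.Agent.Q25.SG.uk hBT hCP hTG hHX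
    Pool.Agent.Q248.SG.nr p hp F K hFK hK hL S hCM hS
  obtain ⟨W, hW⟩ := stage1 Pool.Agent.Q24.SG.t_UH hIN hCO hTR hSL p hp K hK S hS n₀
  refine ⟨W, fun m B hB => ?_⟩
  obtain ⟨𝔮, h1, h2, h3, H, i1, i2, i3, i4, g, m', h4, h5, h6, h7⟩ := hn₀ m B hB
  exact ⟨𝔮, h1, h2, ⟨H, i1, i2, i3, i4, g, m', h4, h5, h6, h7⟩,
    fun H _ _ _ _ g m hg hm hr => hW 𝔮 h2 h3 H g m hg hm hr⟩

end Pool.Agent.H50.SG
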